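import Pool.Agent.Lib.Sym40.Trace

open Finset

namespace Pool.Agent.Lib.Sym40

private theorem key_sum {𝕜 : Type*} [RCLike 𝕜] {E : Type*} [NormedAddCommGroup E]
    [InnerProductSpace 𝕜 E] [FiniteDimensional 𝕜 E] (W : Submodule 𝕜 E) (x y : E) :
    ∑ a, (starRingEnd 𝕜) (inner 𝕜 ((stdOrthonormalBasis 𝕜 W a : W) : E) x) *
      inner 𝕜 ((stdOrthonormalBasis 𝕜 W a : W) : E) y = inner 𝕜 x (W.starProjection y) := by
  have h := (stdOrthonormalBasis 𝕜 W).sum_inner_mul_inner (W.orthogonalProjectionOnto x)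
    (W.orthogonalProjectionOnto y)
  rw [Submodule.inner_orthogonalProjectionOnto_eq_of_mem_right] at h
  rw [Submodule.starProjection_apply, ← h]
  refine Finset.sum_congr rfl fun a _ => ?_
  rw [inner_conj_symm, Submodule.inner_orthogonalProjectionOnto_eq_of_mem_right,
    Submodule.inner_orthogonalProjectionOnto_eq_of_mem_left]

private theorem key_norm {𝕜 : Type*} [RCLike 𝕜] {E : Type*} [NormedAddCommGroup E]
    [InnerProductSpace 𝕜 E] [FiniteDimensional 𝕜 E] (W : Submodule 𝕜 E) (x : E) :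
    ∑ a, ‖inner 𝕜 ((stdOrthonormalBasis 𝕜 W a : W) : E) x‖ ^ 2 = ‖W.starProjection x‖ ^ 2 := by
  have h := (stdOrthonormalBasis 𝕜 W).sum_sq_norm_inner_right (W.orthogonalProjectionOnto x)
  rw [Submodule.starProjection_apply, ← Submodule.coe_norm, ← h]
  refine Finset.sum_congr rfl fun a _ => ?_
  rw [Submodule.inner_orthogonalProjectionOnto_eq_of_mem_left]

private theorem multichoose_mono {d r : ℕ} (h : d ≤ r) (k : ℕ) :
    d.multichoose k ≤ r.multichoose k := by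
  rw [Nat.multichoose_eq, Nat.multichoose_eq]
  exact Nat.choose_le_choose _ (by omega)

/-- The localisation lemma. PROOF: `trace_lemma` with `κ = Fin (finrank W) ⊕ Fin (finrank Wᗮ)`,
`S = univ.map Sum.inl`, `f i (inl a) = ⟪b₁ a, v i⟫`, `f i (inr a) = ⟪b₂ a, v i⟫` for orthonormal bases of
`W` and `Wᗮ` (`stdOrthonormalBasis`); `⟪v, w⟫ = ⟪P v, P w⟫ + ⟪P' v, P' w⟫` and
`OrthonormalBasis.sum_inner_mul_inner`; `multichoose` is monotone in the first argument. -/
theorem key_lemma {𝕜 : Type*} [RCLike 𝕜] {E : Type*} [NormedAddCommGroup E]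
    [InnerProductSpace 𝕜 E] [FiniteDimensional 𝕜 E] {ι : Type*} [Fintype ι]
    (v : ι → E) (W : Submodule 𝕜 E) (k r : ℕ) (hW : Module.finrank 𝕜 W ≤ r) {μ c : ℝ}
    (hμ : 0 ≤ μ) (hc : 0 < c) (h1 : ∀ i, ‖v i‖ = 1)
    (h2 : ∀ i j, i ≠ j → ‖inner 𝕜 (v i) (v j)‖ ≤ μ)
    (h3 : ∀ i, c ≤ ‖W.starProjection (v i)‖ ^ 2)
    (hR : 4 * ((r.multichoose k : ℕ) : ℝ) * μ ^ (2 * k) < c ^ (2 * k)) :
    (Fintype.card ι : ℝ) * c ^ (2 * k) ≤ 2 * ((r.multichoose k : ℕ) : ℝ) := by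
  classical
  let f : ι → (Fin (Module.finrank 𝕜 W) ⊕ Fin (Module.finrank 𝕜 Wᗮ)) → 𝕜 := fun i =>
    Sum.elim (fun a => inner 𝕜 ((stdOrthonormalBasis 𝕜 W a : W) : E) (v i))
      (fun a => inner 𝕜 ((stdOrthonormalBasis 𝕜 Wᗮ a : Wᗮ) : E) (v i))
  let S : Finset (Fin (Module.finrank 𝕜 W) ⊕ Fin (Module.finrank 𝕜 Wᗮ)) :=
    univ.map ⟨Sum.inl, Sum.inl_injective⟩
  have hS : S.card = Module.finrank 𝕜 W := by simp [S]
  have hm : (((Module.finrank 𝕜 W).multichoose k : ℕ) : ℝ) ≤ ((r.multichoose k : ℕ) : ℝ) := by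
    exact_mod_cast multichoose_mono hW k
  have hmu : 0 ≤ μ ^ (2 * k) := pow_nonneg hμ _
  have key := trace_lemma S f k (μ := μ) (c := c) hμ hc
    (by
      intro i
      rw [Fintype.sum_sum_type]
      simp only [f, Sum.elim_inl, Sum.elim_inr]
      rw [key_norm, key_norm, ← Submodule.norm_sq_eq_add_norm_sq_starProjection, h1 i]
      norm_num)
    (by
      intro i j hij
      rw [Fintype.sum_sum_type]
      simp only [f, Sum.elim_inl, Sum.elim_inr]
      rw [key_sum, key_sum, ← inner_add_right, Submodule.starProjection_add_starProjection_orthogonal]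
      exact h2 i j hij)
    (by
      intro i
      have : ∑ a ∈ S, ‖f i a‖ ^ 2 = ‖W.starProjection (v i)‖ ^ 2 := by
        rw [← key_norm]
        simp [S, f]
      rw [this]
      exact h3 i)
    (by
      rw [hS]
      refine lt_of_le_of_lt ?_ hR
      gcongr)
  rw [hS] at key
  linarith

end Pool.Agent.Lib.Sym40
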