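import Pool.Agent.Lib.Sym40.Mass

/-!
# Finitely many of the ranges suffice
-/

set_option autoImplicit false

namespace Pool.Agent.Lib.Sym40

/-- the common eigenvectors of the `g x`, `x ∈ s` -/
private def spanKer {𝕜 : Type*} [RCLike 𝕜] {E : Type*} [NormedAddCommGroup E]
    [InnerProductSpace 𝕜 E] {X : Type*} (g : X → E ≃ₗᵢ[𝕜] E) (lam : X → 𝕜) (s : Finset X) :
    Submodule 𝕜 E where
  carrier := {v | ∀ x ∈ s, g x v = lam x • v}
  add_mem' := by
    intro a b ha hb x hx
    rw [map_add, ha x hx, hb x hx, smul_add]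
  zero_mem' := by
    intro x _
    rw [map_zero, smul_zero]
  smul_mem' := by
    intro c a ha x hx
    rw [map_smul, ha x hx, smul_comm]

private lemma mem_spanKer {𝕜 : Type*} [RCLike 𝕜] {E : Type*} [NormedAddCommGroup E]
    [InnerProductSpace 𝕜 E] {X : Type*} {g : X → E ≃ₗᵢ[𝕜] E} {lam : X → 𝕜} {s : Finset X} {v : E} :
    v ∈ spanKer g lam s ↔ ∀ x ∈ s, g x v = lam x • v := Iff.rfl

/-- every nonzero vector is moved by one of the `g x` -/
private lemma span_moved {𝕜 : Type*} [RCLike 𝕜] {E : Type*} [NormedAddCommGroup E]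
    [InnerProductSpace 𝕜 E] {X : Type*} (g : X → E ≃ₗᵢ[𝕜] E) (lam : X → 𝕜)
    (hs : (⨆ x, LinearMap.range (dif (g x) (lam x))) = ⊤) {v : E} (hv : v ≠ 0) :
    ∃ x, g x v ≠ lam x • v := by
  by_contra hcon
  push Not at hcon
  have h1 : (⨆ x, LinearMap.range (dif (g x) (lam x))) ≤ (Submodule.span 𝕜 {v})ᗮ := by
    refine iSup_le fun x => ?_
    rintro _ ⟨y, rfl⟩
    rw [Submodule.mem_orthogonal_singleton_iff_inner_right]
    exact perp_of_eig (g x) (lam x) v (hcon x) y
  rw [hs] at h1
  have h2 : v ∈ (Submodule.span 𝕜 {v})ᗮ := h1 Submodule.mem_top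
  rw [Submodule.mem_orthogonal_singleton_iff_inner_right, inner_self_eq_zero] at h2
  exact hv h2

/-- If the ranges of `g x - lam x` span the space, then at most `dim E` of the `x` are such that no
nonzero vector `v` has `g x v = lam x v` for all of them. PROOF: choose a basis of `E` inside the union
of the ranges, and an `x` for each basis vector (`perp_of_eig`). -/
theorem span {𝕜 : Type*} [RCLike 𝕜] {E : Type*} [NormedAddCommGroup E]
    [InnerProductSpace 𝕜 E] [FiniteDimensional 𝕜 E] {X : Type*} (g : X → E ≃ₗᵢ[𝕜] E) (lam : X → 𝕜)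
    (hs : (⨆ x, LinearMap.range (dif (g x) (lam x))) = ⊤) :
    ∃ s : Finset X, s.card ≤ Module.finrank 𝕜 E ∧
      ∀ v : E, (∀ x ∈ s, g x v = lam x • v) → v = 0 := by
  classical
  have key : ∀ n : ℕ, ∃ s : Finset X, s.card ≤ n ∧
      (spanKer g lam s = ⊥ ∨ Module.finrank 𝕜 (spanKer g lam s) + n ≤ Module.finrank 𝕜 E) := by
    intro n
    induction n with
    | zero =>
      exact ⟨∅, by simp, Or.inr (by simpa using Submodule.finrank_le _)⟩
    | succ n ih =>
      obtain ⟨s, hsn, h⟩ := ih
      by_cases hb : spanKer g lam s = ⊥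
      · exact ⟨s, by omega, Or.inl hb⟩
      · have h1 : Module.finrank 𝕜 (spanKer g lam s) + n ≤ Module.finrank 𝕜 E :=
          h.resolve_left hb
        obtain ⟨v, hv, hv0⟩ := Submodule.exists_mem_ne_zero_of_ne_bot hb
        obtain ⟨x, hx⟩ := span_moved g lam hs hv0
        refine ⟨insert x s, (Finset.card_insert_le _ _).trans (by omega), Or.inr ?_⟩
        have hlt : spanKer g lam (insert x s) < spanKer g lam s := by
          refine lt_of_le_of_ne ?_ ?_
          · intro w hw y hy
            exact hw y (Finset.mem_insert_of_mem hy)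
          · intro heq
            rw [← heq] at hv
            exact hx (hv x (Finset.mem_insert_self _ _))
        have h2 := Submodule.finrank_lt_finrank_of_lt hlt
        omega
  obtain ⟨s, hsn, h⟩ := key (Module.finrank 𝕜 E)
  refine ⟨s, hsn, fun v hv => ?_⟩
  have hbot : spanKer g lam s = ⊥ := by
    rcases h with h | h
    · exact h
    · rw [← Submodule.finrank_eq_zero (R := 𝕜)]
      omega
  have hmem : v ∈ spanKer g lam s := mem_spanKer.2 hv
  rw [hbot, Submodule.mem_bot] at hmem
  exact hmem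

end Pool.Agent.Lib.Sym40
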