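import Pool.Agent.Lib.Sym40.Key
import Pool.Agent.Lib.Sym40.Span
import Pool.Agent.Lib.Sym40.Num

open Finset

namespace Pool.Agent.Lib.Sym40

theorem fin_aux {𝕜 : Type*} [RCLike 𝕜] {E : Type*} [NormedAddCommGroup E]
    [InnerProductSpace 𝕜 E] [FiniteDimensional 𝕜 E] {N r : ℕ} {μ : ℝ} (h0 : 0 < μ)
    (h1 : μ ≤ 1 / 16) (hr : 1 ≤ r) (v : Fin N → E) (hv : ∀ i, ‖v i‖ = 1)
    (hc : ∀ i j, i ≠ j → ‖inner 𝕜 (v i) (v j)‖ ≤ μ) (G : Set (E ≃ₗᵢ[𝕜] E))
    (hG : ∀ g ∈ G, ∀ i, ∃ j, ∃ ω : 𝕜, g (v i) = ω • v j) (lam : (E ≃ₗᵢ[𝕜] E) → 𝕜)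
    (hrank : ∀ g ∈ G, ∃ U : Submodule 𝕜 E, Module.finrank 𝕜 E ≤ Module.finrank 𝕜 U + r ∧
      ∀ x ∈ U, g x = lam g • x)
    (hfix : ∀ x : E, (∀ g ∈ G, g x = lam g • x) → x = 0) :
    (N : ℝ) ≤ Module.finrank 𝕜 E *
      ((1 / μ) ^ 2 * Real.exp (128 * r * μ ^ 2 * Real.log (1 / μ))) := by
  classical
  obtain ⟨k, hk1, hk2⟩ := num h0 h1 hr
  have hspan : (⨆ x : G, LinearMap.range (dif x.1 (lam x.1))) = ⊤ := by
    rw [← Submodule.orthogonal_eq_bot_iff, Submodule.eq_bot_iff]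
    intro x hx
    refine hfix x fun g hg => eig_of_perp g (lam g) x fun y => ?_
    rw [Submodule.mem_orthogonal'] at hx
    exact hx _ (Submodule.mem_iSup_of_mem (⟨g, hg⟩ : G) (LinearMap.mem_range_self _ y))
  obtain ⟨s, hs1, hs2⟩ := span (fun x : G => x.1) (fun x : G => lam x.1) hspan
  have hcover : (univ : Finset (Fin N)) ⊆
      s.biUnion fun x => univ.filter fun i => x.1 (v i) ≠ lam x.1 • v i := by
    intro i _
    rw [mem_biUnion]
    by_contra hcon
    push Not at hcon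
    have h2 : v i = 0 := hs2 (v i) fun x hx => by
      have := hcon x hx
      simpa using this
    have h3 := hv i
    rw [h2, norm_zero] at h3
    exact zero_ne_one h3
  set b : ℝ := (1 / μ) ^ 2 * Real.exp (128 * r * μ ^ 2 * Real.log (1 / μ)) with hb
  have hb0 : 0 ≤ b := by positivity
  have hc0 : 0 < (1 - μ) / 2 := by linarith
  have hx : ∀ x ∈ s, (((univ.filter fun i => x.1 (v i) ≠ lam x.1 • v i).card : ℕ) : ℝ) ≤ b := by
    intro x _
    obtain ⟨g, hg⟩ := x
    have hW : Module.finrank 𝕜 (LinearMap.range (dif g (lam g))) ≤ r := by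
      obtain ⟨U, hU1, hU2⟩ := hrank g hg
      have h2 := LinearMap.finrank_range_add_finrank_ker (dif g (lam g))
      have h3 : U ≤ LinearMap.ker (dif g (lam g)) := by
        intro y hy
        rw [LinearMap.mem_ker, dif]
        simp [hU2 y hy]
      have h4 := Submodule.finrank_mono h3
      omega
    have h5 := key_lemma (𝕜 := 𝕜)
      (fun i : {i // i ∈ (univ.filter fun i => g (v i) ≠ lam g • v i)} => v i.1)
      (LinearMap.range (dif g (lam g))) k r hW h0.le hc0 (fun i => hv i.1)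
      (fun i j hij => hc i.1 j.1 fun h => hij (Subtype.ext h)) (fun i => by
        have hne : g (v i.1) ≠ lam g • v i.1 := (mem_filter.1 i.2).2
        refine mass g (lam g) (v i.1) (hv i.1) h0.le hne ?_
        obtain ⟨j, ω, hj⟩ := hG g hg i.1
        by_cases hij : j = i.1
        · left
          exact ⟨ω, by rw [hj, hij]⟩
        · right
          have hω : ‖ω‖ = 1 := by
            have h6 : ‖g (v i.1)‖ = 1 := by rw [LinearIsometryEquiv.norm_map, hv]
            rw [hj, norm_smul, hv, mul_one] at h6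
            exact h6
          rw [hj, inner_smul_left, norm_mul, RCLike.norm_conj, hω, one_mul]
          exact hc j i.1 hij) hk1
    rw [Fintype.card_coe] at h5
    refine le_trans ?_ hk2
    rw [le_div_iff₀ (pow_pos hc0 _)]
    exact h5
  calc (N : ℝ) = (((univ : Finset (Fin N)).card : ℕ) : ℝ) := by simp
    _ ≤ (((s.biUnion fun x => univ.filter fun i => x.1 (v i) ≠ lam x.1 • v i).card : ℕ) : ℝ) :=
        Nat.cast_le.2 (card_le_card hcover)
    _ ≤ ∑ x ∈ s, (((univ.filter fun i => x.1 (v i) ≠ lam x.1 • v i).card : ℕ) : ℝ) := by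
        have := card_biUnion_le (s := s)
          (t := fun x => univ.filter fun i => x.1 (v i) ≠ lam x.1 • v i)
        exact_mod_cast this
    _ ≤ ∑ x ∈ s, b := sum_le_sum hx
    _ = s.card * b := by rw [sum_const, nsmul_eq_mul]
    _ ≤ Module.finrank 𝕜 E * b := mul_le_mul_of_nonneg_right (Nat.cast_le.2 hs1) hb0

end Pool.Agent.Lib.Sym40
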