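import Mathlib

namespace Pool.Agent.Lib.Sym40

/-- `g - lam` as a linear map -/
noncomputable def dif {𝕜 : Type*} [RCLike 𝕜] {E : Type*} [NormedAddCommGroup E]
    [InnerProductSpace 𝕜 E] (g : E ≃ₗᵢ[𝕜] E) (lam : 𝕜) : E →ₗ[𝕜] E :=
  (g.toLinearEquiv : E →ₗ[𝕜] E) - lam • LinearMap.id

private lemma dif_apply {𝕜 : Type*} [RCLike 𝕜] {E : Type*} [NormedAddCommGroup E]
    [InnerProductSpace 𝕜 E] (g : E ≃ₗᵢ[𝕜] E) (lam : 𝕜) (x : E) :
    dif g lam x = g x - lam • x := rfl

/-- If `u` is orthogonal to the range of `g - lam` then `g u = lam u`. PROOF: for all `x`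
`⟪u, g x⟫ = lam ⟪u, x⟫`; with `x = g⁻¹ y`: `⟪u, y⟫ = lam ⟪u, g⁻¹ y⟫ = lam ⟪g u, y⟫`, so
`u = conj lam • g u`; if `u ≠ 0` then `|lam| = 1` (norms) and `g u = lam • u`. -/
theorem eig_of_perp {𝕜 : Type*} [RCLike 𝕜] {E : Type*} [NormedAddCommGroup E]
    [InnerProductSpace 𝕜 E] (g : E ≃ₗᵢ[𝕜] E) (lam : 𝕜) (u : E)
    (hu : ∀ x : E, inner 𝕜 u (dif g lam x) = 0) : g u = lam • u := by
  have h1 : ∀ y : E, inner 𝕜 u y = inner 𝕜 ((starRingEnd 𝕜) lam • g u) y := by
    intro y
    have h2 := hu (g.symm y)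
    rw [dif_apply, LinearIsometryEquiv.apply_symm_apply, inner_sub_right, inner_smul_right,
      sub_eq_zero] at h2
    have h3 : inner 𝕜 (g u) (g (g.symm y)) = inner 𝕜 u (g.symm y) := g.inner_map_map _ _
    rw [LinearIsometryEquiv.apply_symm_apply] at h3
    rw [inner_smul_left, RCLike.conj_conj, h3, h2]
  have h4 : u = (starRingEnd 𝕜) lam • g u := ext_inner_right 𝕜 h1
  by_cases hu0 : u = 0
  · rw [hu0]
    simp
  · have h5 : ‖u‖ = ‖lam‖ * ‖u‖ := by
      have h6 : ‖u‖ = ‖(starRingEnd 𝕜) lam • g u‖ := congrArg _ h4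
      rw [norm_smul, RCLike.norm_conj, g.norm_map] at h6
      exact h6
    have h7 : ‖lam‖ = 1 := by
      have h8 : ‖u‖ ≠ 0 := norm_ne_zero_iff.2 hu0
      have h9 : (‖lam‖ - 1) * ‖u‖ = 0 := by linarith
      rcases mul_eq_zero.1 h9 with h | h
      · linarith
      · exact absurd h h8
    have h10 : lam * (starRingEnd 𝕜) lam = 1 := by
      rw [RCLike.mul_conj, h7]
      simp
    calc g u = (lam * (starRingEnd 𝕜) lam) • g u := by rw [h10, one_smul]
      _ = lam • ((starRingEnd 𝕜) lam • g u) := by rw [mul_smul]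
      _ = lam • u := by rw [← h4]

/-- The converse. -/
theorem perp_of_eig {𝕜 : Type*} [RCLike 𝕜] {E : Type*} [NormedAddCommGroup E]
    [InnerProductSpace 𝕜 E] (g : E ≃ₗᵢ[𝕜] E) (lam : 𝕜) (u : E) (hu : g u = lam • u) (x : E) :
    inner 𝕜 u (dif g lam x) = 0 := by
  by_cases hu0 : u = 0
  · rw [hu0, inner_zero_left]
  · have h7 : ‖lam‖ = 1 := by
      have h8 : ‖u‖ ≠ 0 := norm_ne_zero_iff.2 hu0
      have h6 : ‖g u‖ = ‖lam • u‖ := congrArg _ hu
      rw [norm_smul, g.norm_map] at h6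
      have h9 : (‖lam‖ - 1) * ‖u‖ = 0 := by linarith
      rcases mul_eq_zero.1 h9 with h | h
      · linarith
      · exact absurd h h8
    have h10 : lam * (starRingEnd 𝕜) lam = 1 := by
      rw [RCLike.mul_conj, h7]
      simp
    have h3 : inner 𝕜 (g u) (g x) = inner 𝕜 u x := g.inner_map_map _ _
    rw [hu, inner_smul_left] at h3
    rw [dif_apply, inner_sub_right, inner_smul_right, ← h3, ← mul_assoc, h10, one_mul, sub_self]

/-- A unit vector that is moved by `g` far enough has at least the share `(1 - μ) / 2` of its mass in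
the range of `g - lam`. PROOF: if `g v = ω v`, `ω ≠ lam`, then `v` lies in the range. Otherwise
`v = u + w`, `w` the projection, `g u = lam u` (`eig_of_perp`), `⟪g v, v⟫` has absolute value at least
`‖u‖² - ‖w‖² = 1 - 2 ‖w‖²` (`⟪g u, w⟫ = 0`, `⟪g w, u⟫ = 0` by `perp_of_eig` and `⟪w, u⟫ = 0`). -/
theorem mass {𝕜 : Type*} [RCLike 𝕜] {E : Type*} [NormedAddCommGroup E]
    [InnerProductSpace 𝕜 E] [FiniteDimensional 𝕜 E] (g : E ≃ₗᵢ[𝕜] E) (lam : 𝕜) (v : E)
    (hv : ‖v‖ = 1) {μ : ℝ} (hμ0 : 0 ≤ μ) (hne : g v ≠ lam • v)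
    (h : (∃ ω : 𝕜, g v = ω • v) ∨ ‖inner 𝕜 (g v) v‖ ≤ μ) :
    (1 - μ) / 2 ≤ ‖(LinearMap.range (dif g lam)).starProjection v‖ ^ 2 := by
  rcases h with ⟨ω, hω⟩ | hμ
  · have hd : ω - lam ≠ 0 := by
      intro h0
      apply hne
      rw [hω, sub_eq_zero.1 h0]
    have hmem : v ∈ LinearMap.range (dif g lam) := by
      refine ⟨(ω - lam)⁻¹ • v, ?_⟩
      rw [map_smul, dif_apply, hω, ← sub_smul, smul_smul, inv_mul_cancel₀ hd, one_smul]
    rw [Submodule.starProjection_eq_self_iff.2 hmem, hv]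
    linarith
  · set W := LinearMap.range (dif g lam) with hW
    set w : E := W.starProjection v with hw
    set u : E := v - w with hu
    have hwW : w ∈ W := Submodule.starProjection_apply_mem W v
    have huW : u ∈ Wᗮ := Submodule.sub_starProjection_mem_orthogonal v
    have huw : inner 𝕜 u w = 0 := Submodule.inner_left_of_mem_orthogonal hwW huW
    have hwu : inner 𝕜 w u = 0 := Submodule.inner_right_of_mem_orthogonal hwW huW
    have hgu : g u = lam • u := eig_of_perp g lam u fun x =>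
      Submodule.inner_left_of_mem_orthogonal (LinearMap.mem_range_self (dif g lam) x) huW
    have hvuw : v = u + w := by rw [hu, sub_add_cancel]
    have hpyth : ‖u‖ ^ 2 + ‖w‖ ^ 2 = 1 := by
      have h1 := norm_add_sq (𝕜 := 𝕜) u w
      rw [← hvuw, hv, huw] at h1
      simp only [map_zero, mul_zero, add_zero, one_pow] at h1
      linarith
    have hugw : inner 𝕜 (g w) u = 0 := by
      have h1 := perp_of_eig g lam u hgu w
      rw [dif_apply, inner_sub_right, inner_smul_right, huw, mul_zero, sub_zero] at h1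
      rw [← inner_conj_symm, h1, map_zero]
    have hguw : inner 𝕜 (g u) w = 0 := by
      rw [hgu, inner_smul_left, huw, mul_zero]
    have hkey : inner 𝕜 (g v) v = inner 𝕜 (g u) u + inner 𝕜 (g w) w := by
      conv_lhs => rw [hvuw]
      rw [map_add, inner_add_left, inner_add_right, inner_add_right, hguw, hugw]
      ring
    by_cases hu0 : u = 0
    · rw [hu0, norm_zero] at hpyth
      nlinarith
    · have h7 : ‖lam‖ = 1 := by
        have h8 : ‖u‖ ≠ 0 := norm_ne_zero_iff.2 hu0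
        have h6 : ‖g u‖ = ‖lam • u‖ := congrArg _ hgu
        rw [norm_smul, g.norm_map] at h6
        have h9 : (‖lam‖ - 1) * ‖u‖ = 0 := by linarith
        rcases mul_eq_zero.1 h9 with h | h
        · linarith
        · exact absurd h h8
      have h8 : ‖inner 𝕜 (g u) u‖ = ‖u‖ ^ 2 := by
        rw [hgu, inner_smul_left, norm_mul, RCLike.norm_conj, h7, one_mul,
          inner_self_eq_norm_sq_to_K, norm_pow, RCLike.norm_ofReal, abs_norm]
      have h9 : ‖inner 𝕜 (g w) w‖ ≤ ‖w‖ ^ 2 := by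
        have h10 := norm_inner_le_norm (𝕜 := 𝕜) (g w) w
        rw [g.norm_map] at h10
        nlinarith
      have h11 : ‖inner 𝕜 (g u) u‖ - ‖inner 𝕜 (g w) w‖ ≤ μ := by
        refine le_trans ?_ hμ
        rw [hkey]
        have h12 := norm_sub_norm_le (inner 𝕜 (g u) u) (-(inner 𝕜 (g w) w))
        rw [norm_neg, sub_neg_eq_add] at h12
        exact h12
      nlinarith

end Pool.Agent.Lib.Sym40
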