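import Mathlib

namespace Pool.Agent.Lib.Sym40

private lemma multichoose_le2 {r k : ℕ} (hk : 1 ≤ k) :
    ((r.multichoose k : ℕ) : ℝ) ≤ (Real.exp 1 * (1 + r / k)) ^ k := by
  have hk0 : (0 : ℝ) < k := by exact_mod_cast hk
  have h1 : ((r.multichoose k : ℕ) : ℝ) ≤ ((r + k : ℕ) : ℝ) ^ k / (k.factorial : ℝ) := by
    rw [Nat.multichoose_eq]
    refine (Nat.choose_le_pow_div k (r + k - 1)).trans ?_
    have h3 : ((r + k - 1 : ℕ) : ℝ) ≤ ((r + k : ℕ) : ℝ) := by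
      exact_mod_cast Nat.sub_le _ _
    gcongr
  have h2 : (k : ℝ) ^ k / (k.factorial : ℝ) ≤ Real.exp k :=
    Real.pow_div_factorial_le_exp (k : ℝ) hk0.le k
  refine h1.trans ?_
  have h4 : ((r + k : ℕ) : ℝ) = (1 + r / k) * k := by
    push_cast
    field_simp
    ring
  rw [h4, mul_pow, mul_pow, mul_div_assoc]
  have h5 : Real.exp 1 ^ k = Real.exp k := by
    rw [← Real.exp_nat_mul, mul_one]
  rw [h5, mul_comm (Real.exp (k : ℝ))]
  exact mul_le_mul_of_nonneg_left h2 (by positivity)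

/-- As `num`, for a share `c ≥ 16 μ`: `k = ⌈64 r (μ / c)²⌉₊`. -/
theorem num2 {μ c : ℝ} (h0 : 0 < μ) (h1 : 16 * μ ≤ c) (hc1 : c ≤ 1) {r : ℕ} (hr : 1 ≤ r) :
    ∃ k : ℕ, 4 * ((r.multichoose k : ℕ) : ℝ) * μ ^ (2 * k) < c ^ (2 * k) ∧
      2 * ((r.multichoose k : ℕ) : ℝ) / c ^ (2 * k) ≤
        (1 / μ) ^ 2 * Real.exp (128 * r * (μ / c) ^ 2 * Real.log (1 / μ)) := by
  have hr0 : (0 : ℝ) < r := by exact_mod_cast hr
  have hc0 : 0 < c := by linarith
  have hx0 : (0 : ℝ) < 64 * r * (μ / c) ^ 2 := by positivity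
  obtain ⟨k, hk, hkl, hku⟩ : ∃ k : ℕ, 1 ≤ k ∧ 64 * (r : ℝ) * (μ / c) ^ 2 ≤ k ∧
      (k : ℝ) ≤ 64 * r * (μ / c) ^ 2 + 1 :=
    ⟨⌈64 * (r : ℝ) * (μ / c) ^ 2⌉₊, Nat.one_le_iff_ne_zero.2 (Nat.ceil_pos.2 hx0).ne',
      Nat.le_ceil _, (Nat.ceil_lt_add_one hx0.le).le⟩
  have hk0 : (0 : ℝ) < k := by exact_mod_cast hk
  have hμ2 : 0 < μ ^ 2 := by positivity
  have hc2 : 0 < c ^ 2 := by positivity
  have hμ3 : μ ^ 2 ≤ c ^ 2 / 256 := by nlinarith
  have hc3 : c ^ 2 ≤ 1 := by nlinarith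
  set R : ℝ := ((r.multichoose k : ℕ) : ℝ) with hR
  have hR0 : 0 ≤ R := Nat.cast_nonneg _
  -- the base
  have hq : (r : ℝ) / k * μ ^ 2 ≤ c ^ 2 / 64 := by
    rw [div_pow] at hkl
    have h2 : 64 * (r : ℝ) * (μ ^ 2 / c ^ 2) = 64 * r * μ ^ 2 / c ^ 2 := by ring
    rw [h2, div_le_iff₀ hc2] at hkl
    rw [div_mul_eq_mul_div, div_le_iff₀ hk0]
    linarith
  have hb : Real.exp 1 * (1 + r / k) * μ ^ 2 ≤ 532 / 10000 * c ^ 2 := by
    have h2 : (1 + (r : ℝ) / k) * μ ^ 2 ≤ 5 / 256 * c ^ 2 := by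
      rw [add_mul, one_mul]
      linarith
    have h3 : Real.exp 1 ≤ 2.7182818286 := Real.exp_one_lt_d9.le
    have h4 : 0 ≤ (1 + (r : ℝ) / k) * μ ^ 2 := by positivity
    have h5 : Real.exp 1 * ((1 + (r : ℝ) / k) * μ ^ 2) ≤ 2.7182818286 * (5 / 256 * c ^ 2) :=
      mul_le_mul h3 h2 h4 (by norm_num)
    rw [mul_assoc]
    refine h5.trans ?_
    linarith
  have hRb : R * μ ^ (2 * k) ≤ (532 / 10000) ^ k * c ^ (2 * k) := by
    have h2 := multichoose_le2 (r := r) hk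
    calc R * μ ^ (2 * k) ≤ (Real.exp 1 * (1 + r / k)) ^ k * μ ^ (2 * k) :=
          mul_le_mul_of_nonneg_right h2 (by positivity)
      _ = (Real.exp 1 * (1 + r / k) * μ ^ 2) ^ k := by
          rw [pow_mul, ← mul_pow]
      _ ≤ (532 / 10000 * c ^ 2) ^ k :=
          pow_le_pow_left₀ (by positivity) hb k
      _ = (532 / 10000) ^ k * c ^ (2 * k) := by
          rw [mul_pow, ← pow_mul]
  have hck : 0 < c ^ (2 * k) := by positivity
  refine ⟨k, ?_, ?_⟩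
  · have h2 : (532 / 10000 : ℝ) ^ k ≤ 532 / 10000 := by
      calc (532 / 10000 : ℝ) ^ k ≤ (532 / 10000 : ℝ) ^ 1 :=
            pow_le_pow_of_le_one (by norm_num) (by norm_num) hk
        _ = _ := pow_one _
    have h3 : R * μ ^ (2 * k) ≤ 532 / 10000 * c ^ (2 * k) :=
      hRb.trans (mul_le_mul_of_nonneg_right h2 hck.le)
    have h4 : 4 * R * μ ^ (2 * k) = 4 * (R * μ ^ (2 * k)) := by ring
    rw [h4]
    linarith
  · have h2 : R / c ^ (2 * k) ≤ (1 / (16 * μ ^ 2)) ^ k := by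
      rw [div_le_iff₀ hck]
      have h3 : (532 / 10000 : ℝ) ^ k ≤ (1 / 16) ^ k :=
        pow_le_pow_left₀ (by norm_num) (by norm_num) k
      have h4 : R * μ ^ (2 * k) ≤ (1 / 16) ^ k * c ^ (2 * k) :=
        hRb.trans (mul_le_mul_of_nonneg_right h3 hck.le)
      have h5 : 0 < μ ^ (2 * k) := by positivity
      have h6 : (1 / (16 * μ ^ 2)) ^ k * μ ^ (2 * k) = (1 / 16) ^ k := by
        rw [pow_mul, ← mul_pow]
        congr 1
        field_simp
      refine le_of_mul_le_mul_right ?_ h5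
      calc R * μ ^ (2 * k) ≤ (1 / 16) ^ k * c ^ (2 * k) := h4
        _ = (1 / (16 * μ ^ 2)) ^ k * c ^ (2 * k) * μ ^ (2 * k) := by
            rw [← h6]; ring
    have hB1 : 1 ≤ 1 / (16 * μ ^ 2) := by
      rw [le_div_iff₀ (by positivity)]
      linarith
    have hB0 : 0 < 1 / (16 * μ ^ 2) := by positivity
    have hl0 : 0 ≤ Real.log (1 / (16 * μ ^ 2)) := Real.log_nonneg hB1
    have h3 : (1 / (16 * μ ^ 2)) ^ k ≤
        1 / (16 * μ ^ 2) * Real.exp (128 * r * (μ / c) ^ 2 * Real.log (1 / μ)) := by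
      have e1 : (1 / (16 * μ ^ 2)) ^ k = Real.exp (k * Real.log (1 / (16 * μ ^ 2))) := by
        rw [Real.exp_nat_mul, Real.exp_log hB0]
      have e2 : 1 / (16 * μ ^ 2) * Real.exp (128 * r * (μ / c) ^ 2 * Real.log (1 / μ)) =
          Real.exp (Real.log (1 / (16 * μ ^ 2)) + 128 * r * (μ / c) ^ 2 * Real.log (1 / μ)) := by
        rw [Real.exp_add, Real.exp_log hB0]
      rw [e1, e2]
      apply Real.exp_le_exp.2
      have e3 : Real.log (1 / (16 * μ ^ 2)) ≤ 2 * Real.log (1 / μ) := by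
        have e4 : 2 * Real.log (1 / μ) = Real.log ((1 / μ) ^ 2) := by
          rw [Real.log_pow]; norm_num
        rw [e4]
        apply Real.log_le_log hB0
        rw [div_pow, one_pow]
        apply one_div_le_one_div_of_le (by positivity)
        linarith
      calc (k : ℝ) * Real.log (1 / (16 * μ ^ 2))
          ≤ (64 * r * (μ / c) ^ 2 + 1) * Real.log (1 / (16 * μ ^ 2)) :=
            mul_le_mul_of_nonneg_right hku hl0
        _ = Real.log (1 / (16 * μ ^ 2)) + 64 * r * (μ / c) ^ 2 * Real.log (1 / (16 * μ ^ 2)) := by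
            ring
        _ ≤ Real.log (1 / (16 * μ ^ 2)) + 64 * r * (μ / c) ^ 2 * (2 * Real.log (1 / μ)) := by
            have := mul_le_mul_of_nonneg_left e3 hx0.le
            linarith
        _ = Real.log (1 / (16 * μ ^ 2)) + 128 * r * (μ / c) ^ 2 * Real.log (1 / μ) := by ring
    have hE : 0 < Real.exp (128 * r * (μ / c) ^ 2 * Real.log (1 / μ)) := Real.exp_pos _
    calc 2 * R / c ^ (2 * k) = 2 * (R / c ^ (2 * k)) := by ring
      _ ≤ 2 * (1 / (16 * μ ^ 2) * Real.exp (128 * r * (μ / c) ^ 2 * Real.log (1 / μ))) := by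
          linarith
      _ = 1 / 8 * ((1 / μ) ^ 2 * Real.exp (128 * r * (μ / c) ^ 2 * Real.log (1 / μ))) := by
          field_simp
          ring
      _ ≤ (1 / μ) ^ 2 * Real.exp (128 * r * (μ / c) ^ 2 * Real.log (1 / μ)) := by
          have : 0 ≤ (1 / μ) ^ 2 * Real.exp (128 * r * (μ / c) ^ 2 * Real.log (1 / μ)) := by
            positivity
          linarith

end Pool.Agent.Lib.Sym40
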