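import Mathlib

open Finset

namespace Pool.Agent.Lib.Sym40

private lemma card_sym_le {κ : Type*} [DecidableEq κ] (S : Finset κ) (k : ℕ) :
    (S.sym k).card ≤ S.card.multichoose k := by
  classical
  have h1 : S.sym k ⊆ (univ : Finset (Sym S k)).image (Sym.map Subtype.val) := by
    intro m hm
    rw [mem_sym_iff] at hm
    rw [mem_image]
    refine ⟨m.attach.map fun x => ⟨x.1, hm x.1 x.2⟩, mem_univ _, ?_⟩
    rw [Sym.map_map]
    exact Sym.attach_map_coe m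
  refine (card_le_card h1).trans (card_image_le.trans ?_)
  rw [card_univ, Sym.card_sym_eq_multichoose, Fintype.card_coe]

variable {𝕜 : Type*} [RCLike 𝕜] {ι κ : Type*} [Fintype ι] [DecidableEq κ]

/-- the monomials -/
private noncomputable def xm (f : ι → κ → 𝕜) {k : ℕ} (i : ι) (σ : Sym κ k) : 𝕜 :=
  (σ.val.map (f i)).prod

/-- the multinomial coefficients -/
private noncomputable def mm {k : ℕ} (σ : Sym κ k) : ℝ := (σ.val.countPerms : ℝ)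

private lemma mm_nonneg {k : ℕ} (σ : Sym κ k) : 0 ≤ mm σ := Nat.cast_nonneg _

private noncomputable def TT (f : ι → κ → 𝕜) {k : ℕ} (σ τ : Sym κ k) : 𝕜 :=
  ∑ i, xm f i σ * (starRingEnd 𝕜) (xm f i τ)

omit [Fintype ι] in
private lemma pow_eq (f : ι → κ → 𝕜) (S : Finset κ) (k : ℕ) (i j : ι) :
    (∑ a ∈ S, (starRingEnd 𝕜) (f i a) * f j a) ^ k =
      ∑ σ ∈ S.sym k, (mm σ : 𝕜) * ((starRingEnd 𝕜) (xm f i σ) * xm f j σ) := by
  rw [sum_pow]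
  refine sum_congr rfl fun σ _ => ?_
  rw [Multiset.prod_map_mul]
  congr 1
  · simp [mm]
  · congr 1
    rw [xm, map_multiset_prod, Multiset.map_map]
    rfl

private lemma pow_eq_real (f : ι → κ → 𝕜) (S : Finset κ) (k : ℕ) (i : ι) :
    (∑ a ∈ S, ‖f i a‖ ^ 2) ^ k = ∑ σ ∈ S.sym k, mm σ * ‖xm f i σ‖ ^ 2 := by
  have h := pow_eq f S k i i
  have h1 : ∀ a, (starRingEnd 𝕜) (f i a) * f i a = ((‖f i a‖ ^ 2 : ℝ) : 𝕜) := fun a => by
    rw [RCLike.conj_mul]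
    push_cast
    rfl
  have h2 : ∀ σ : Sym κ k, (starRingEnd 𝕜) (xm f i σ) * xm f i σ
      = ((‖xm f i σ‖ ^ 2 : ℝ) : 𝕜) := fun a => by
    rw [RCLike.conj_mul]
    push_cast
    rfl
  simp only [h1, h2] at h
  have h3 : (((∑ a ∈ S, ‖f i a‖ ^ 2) ^ k : ℝ) : 𝕜) =
      ((∑ σ ∈ S.sym k, mm σ * ‖xm f i σ‖ ^ 2 : ℝ) : 𝕜) := by
    push_cast
    push_cast at h
    exact h
  exact_mod_cast h3

private lemma sum_eq (f : ι → κ → 𝕜) {k : ℕ} (P1 P2 : Finset (Sym κ k)) :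
    ∑ i, ∑ j, (∑ σ ∈ P1, (mm σ : 𝕜) * ((starRingEnd 𝕜) (xm f i σ) * xm f j σ)) *
      (starRingEnd 𝕜) (∑ τ ∈ P2, (mm τ : 𝕜) * ((starRingEnd 𝕜) (xm f i τ) * xm f j τ)) =
      ((∑ σ ∈ P1, ∑ τ ∈ P2, mm σ * mm τ * ‖TT f σ τ‖ ^ 2 : ℝ) : 𝕜) := by
  have h1 : ∀ σ τ : Sym κ k, ((mm σ * mm τ * ‖TT f σ τ‖ ^ 2 : ℝ) : 𝕜) =
      ∑ i, ∑ j, ((mm σ : 𝕜) * ((starRingEnd 𝕜) (xm f i σ) * xm f j σ)) *
        (starRingEnd 𝕜) ((mm τ : 𝕜) * ((starRingEnd 𝕜) (xm f i τ) * xm f j τ)) := by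
    intro σ τ
    have h2 : ((‖TT f σ τ‖ ^ 2 : ℝ) : 𝕜) = (starRingEnd 𝕜) (TT f σ τ) * TT f σ τ := by
      rw [RCLike.conj_mul]
      push_cast
      rfl
    push_cast
    push_cast at h2
    rw [h2, TT, map_sum, sum_mul_sum, mul_sum]
    refine sum_congr rfl fun i _ => ?_
    rw [mul_sum]
    refine sum_congr rfl fun j _ => ?_
    simp only [map_mul, RCLike.conj_conj, RCLike.conj_ofReal]
    ring
  push_cast
  push_cast at h1
  simp_rw [h1]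
  -- interchange the sums
  have h3 : ∀ i j, (∑ σ ∈ P1, (mm σ : 𝕜) * ((starRingEnd 𝕜) (xm f i σ) * xm f j σ)) *
      (starRingEnd 𝕜) (∑ τ ∈ P2, (mm τ : 𝕜) * ((starRingEnd 𝕜) (xm f i τ) * xm f j τ)) =
      ∑ σ ∈ P1, ∑ τ ∈ P2, ((mm σ : 𝕜) * ((starRingEnd 𝕜) (xm f i σ) * xm f j σ)) *
        (starRingEnd 𝕜) ((mm τ : 𝕜) * ((starRingEnd 𝕜) (xm f i τ) * xm f j τ)) := by
    intro i j
    rw [map_sum, sum_mul_sum]
  simp_rw [h3]
  calc ∑ i, ∑ j, ∑ σ ∈ P1, ∑ τ ∈ P2, ((mm σ : 𝕜) * ((starRingEnd 𝕜) (xm f i σ) * xm f j σ)) *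
        (starRingEnd 𝕜) ((mm τ : 𝕜) * ((starRingEnd 𝕜) (xm f i τ) * xm f j τ))
      = ∑ i, ∑ σ ∈ P1, ∑ j, ∑ τ ∈ P2, ((mm σ : 𝕜) * ((starRingEnd 𝕜) (xm f i σ) * xm f j σ)) *
        (starRingEnd 𝕜) ((mm τ : 𝕜) * ((starRingEnd 𝕜) (xm f i τ) * xm f j τ)) :=
        sum_congr rfl fun i _ => sum_comm
    _ = ∑ σ ∈ P1, ∑ i, ∑ j, ∑ τ ∈ P2, ((mm σ : 𝕜) * ((starRingEnd 𝕜) (xm f i σ) * xm f j σ)) *
        (starRingEnd 𝕜) ((mm τ : 𝕜) * ((starRingEnd 𝕜) (xm f i τ) * xm f j τ)) := sum_comm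
    _ = ∑ σ ∈ P1, ∑ i, ∑ τ ∈ P2, ∑ j, ((mm σ : 𝕜) * ((starRingEnd 𝕜) (xm f i σ) * xm f j σ)) *
        (starRingEnd 𝕜) ((mm τ : 𝕜) * ((starRingEnd 𝕜) (xm f i τ) * xm f j τ)) :=
        sum_congr rfl fun σ _ => sum_congr rfl fun i _ => sum_comm
    _ = ∑ σ ∈ P1, ∑ τ ∈ P2, ∑ i, ∑ j, ((mm σ : 𝕜) * ((starRingEnd 𝕜) (xm f i σ) * xm f j σ)) *
        (starRingEnd 𝕜) ((mm τ : 𝕜) * ((starRingEnd 𝕜) (xm f i τ) * xm f j τ)) :=
        sum_congr rfl fun σ _ => sum_comm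

/-- The key lemma in coordinates. PROOF (25): see the page MP_40fe51_h25.md, (A). -/
theorem trace_lemma {𝕜 : Type*} [RCLike 𝕜] {ι κ : Type*} [Fintype ι] [Fintype κ] [DecidableEq κ]
    (S : Finset κ) (f : ι → κ → 𝕜) (k : ℕ) {μ c : ℝ} (hμ : 0 ≤ μ) (hc : 0 < c)
    (h1 : ∀ i, ∑ a, ‖f i a‖ ^ 2 = 1)
    (h2 : ∀ i j, i ≠ j → ‖∑ a, (starRingEnd 𝕜) (f i a) * f j a‖ ≤ μ)
    (h3 : ∀ i, c ≤ ∑ a ∈ S, ‖f i a‖ ^ 2)
    (hR : 4 * ((S.card.multichoose k : ℕ) : ℝ) * μ ^ (2 * k) < c ^ (2 * k)) :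
    (Fintype.card ι : ℝ) * c ^ (2 * k) ≤ 2 * ((S.card.multichoose k : ℕ) : ℝ) := by
  classical
  set R : ℝ := ((S.card.multichoose k : ℕ) : ℝ) with hRdef
  set M : ℝ := (Fintype.card ι : ℝ) with hM
  have hR0 : 0 ≤ R := Nat.cast_nonneg _
  have hM0 : 0 ≤ M := Nat.cast_nonneg _
  set A : ι → ι → 𝕜 := fun i j => (∑ a ∈ S, (starRingEnd 𝕜) (f i a) * f j a) ^ k with hA
  set B : ι → ι → 𝕜 := fun i j => (∑ a, (starRingEnd 𝕜) (f i a) * f j a) ^ k with hB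
  set Q : ℝ := ∑ σ ∈ S.sym k, ∑ τ ∈ S.sym k, mm σ * mm τ * ‖TT f σ τ‖ ^ 2 with hQ
  set Q' : ℝ := ∑ σ ∈ S.sym k, ∑ τ ∈ (univ : Finset κ).sym k, mm σ * mm τ * ‖TT f σ τ‖ ^ 2
    with hQ'
  have hterm : ∀ σ τ : Sym κ k, 0 ≤ mm σ * mm τ * ‖TT f σ τ‖ ^ 2 := fun σ τ =>
    mul_nonneg (mul_nonneg (mm_nonneg σ) (mm_nonneg τ)) (sq_nonneg _)
  -- (1)
  have hQ0 : 0 ≤ Q := sum_nonneg fun σ _ => sum_nonneg fun τ _ => hterm σ τ
  have step1 : (c ^ k * M) ^ 2 ≤ R * Q := by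
    have e1 : c ^ k * M ≤ ∑ σ ∈ S.sym k, mm σ * ‖TT f σ σ‖ := by
      have e2 : ∀ σ : Sym κ k, ‖TT f σ σ‖ = ∑ i, ‖xm f i σ‖ ^ 2 := by
        intro σ
        have : TT f σ σ = ((∑ i, ‖xm f i σ‖ ^ 2 : ℝ) : 𝕜) := by
          rw [TT]
          push_cast
          refine sum_congr rfl fun i _ => ?_
          rw [RCLike.mul_conj]
        rw [this, RCLike.norm_ofReal, abs_of_nonneg (sum_nonneg fun i _ => sq_nonneg _)]
      calc c ^ k * M = ∑ i : ι, c ^ k := by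
            rw [sum_const, card_univ, nsmul_eq_mul, mul_comm]
        _ ≤ ∑ i : ι, (∑ a ∈ S, ‖f i a‖ ^ 2) ^ k :=
            sum_le_sum fun i _ => pow_le_pow_left₀ hc.le (h3 i) k
        _ = ∑ i : ι, ∑ σ ∈ S.sym k, mm σ * ‖xm f i σ‖ ^ 2 :=
            sum_congr rfl fun i _ => pow_eq_real f S k i
        _ = ∑ σ ∈ S.sym k, mm σ * ‖TT f σ σ‖ := by
            rw [sum_comm]
            refine sum_congr rfl fun σ _ => ?_
            rw [e2, mul_sum]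
    have e3 : (∑ σ ∈ S.sym k, mm σ * ‖TT f σ σ‖) ^ 2 ≤
        (S.sym k).card * ∑ σ ∈ S.sym k, (mm σ * ‖TT f σ σ‖) ^ 2 := sq_sum_le_card_mul_sum_sq
    have e4 : ∑ σ ∈ S.sym k, (mm σ * ‖TT f σ σ‖) ^ 2 ≤ Q := by
      refine sum_le_sum fun σ hσ => ?_
      have e5 : (mm σ * ‖TT f σ σ‖) ^ 2 = mm σ * mm σ * ‖TT f σ σ‖ ^ 2 := by ring
      rw [e5]
      exact single_le_sum (f := fun τ => mm σ * mm τ * ‖TT f σ τ‖ ^ 2)
        (fun τ _ => hterm σ τ) hσ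
    have e6 : (((S.sym k).card : ℕ) : ℝ) ≤ R := by
      rw [hRdef]
      exact Nat.cast_le.2 (card_sym_le S k)
    have e7 : 0 ≤ c ^ k * M := mul_nonneg (pow_nonneg hc.le k) hM0
    calc (c ^ k * M) ^ 2 ≤ (∑ σ ∈ S.sym k, mm σ * ‖TT f σ σ‖) ^ 2 :=
          pow_le_pow_left₀ e7 e1 2
      _ ≤ _ := e3
      _ ≤ R * Q := mul_le_mul e6 e4 (sum_nonneg fun σ _ => sq_nonneg _) hR0
  -- (2)
  have hQQ : Q ≤ Q' := by
    refine sum_le_sum fun σ _ => ?_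
    exact sum_le_sum_of_subset_of_nonneg (sym_mono (subset_univ S) k) fun τ _ _ => hterm σ τ
  have hAB : ∑ i, ∑ j, A i j * (starRingEnd 𝕜) (B i j) = ((Q' : ℝ) : 𝕜) := by
    rw [hQ', ← sum_eq]
    refine sum_congr rfl fun i _ => sum_congr rfl fun j _ => ?_
    rw [hA, hB]
    simp only
    rw [pow_eq, pow_eq]
  have hAA : ∑ i, ∑ j, ‖A i j‖ ^ 2 = Q := by
    have : ((∑ i, ∑ j, ‖A i j‖ ^ 2 : ℝ) : 𝕜) = ((Q : ℝ) : 𝕜) := by
      rw [hQ, ← sum_eq]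
      push_cast
      refine sum_congr rfl fun i _ => sum_congr rfl fun j _ => ?_
      rw [← RCLike.mul_conj, hA]
      simp only
      rw [pow_eq]
    exact_mod_cast this
  set Y : ℝ := ∑ i, ∑ j, ‖A i j‖ with hY
  have hY0 : 0 ≤ Y := sum_nonneg fun i _ => sum_nonneg fun j _ => norm_nonneg _
  have step2 : Q' ≤ M + μ ^ k * Y := by
    have e1 : Q' = ‖∑ i, ∑ j, A i j * (starRingEnd 𝕜) (B i j)‖ := by
      rw [hAB, RCLike.norm_ofReal, abs_of_nonneg (hQ0.trans hQQ)]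
    have hA1 : ∀ i, ‖A i i‖ ≤ 1 := by
      intro i
      have e2 : ∑ a ∈ S, (starRingEnd 𝕜) (f i a) * f i a = ((∑ a ∈ S, ‖f i a‖ ^ 2 : ℝ) : 𝕜) := by
        push_cast
        exact sum_congr rfl fun a _ => RCLike.conj_mul _
      have e3 : ∑ a ∈ S, ‖f i a‖ ^ 2 ≤ 1 := by
        rw [← h1 i]
        exact sum_le_sum_of_subset_of_nonneg (subset_univ S) fun a _ _ => sq_nonneg _
      rw [hA]
      simp only
      rw [norm_pow, e2, RCLike.norm_ofReal, abs_of_nonneg (sum_nonneg fun a _ => sq_nonneg _)]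
      exact pow_le_one₀ (sum_nonneg fun a _ => sq_nonneg _) e3
    have hB1 : ∀ i, ‖B i i‖ = 1 := by
      intro i
      have e2 : ∑ a, (starRingEnd 𝕜) (f i a) * f i a = ((∑ a, ‖f i a‖ ^ 2 : ℝ) : 𝕜) := by
        push_cast
        exact sum_congr rfl fun a _ => RCLike.conj_mul _
      rw [hB]
      simp only
      rw [norm_pow, e2, h1 i]
      simp
    have hB2 : ∀ i j, i ≠ j → ‖B i j‖ ≤ μ ^ k := by
      intro i j hij
      rw [hB]
      simp only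
      rw [norm_pow]
      exact pow_le_pow_left₀ (norm_nonneg _) (h2 i j hij) k
    have hμk : 0 ≤ μ ^ k := pow_nonneg hμ k
    rw [e1]
    calc ‖∑ i, ∑ j, A i j * (starRingEnd 𝕜) (B i j)‖
        ≤ ∑ i, ∑ j, ‖A i j * (starRingEnd 𝕜) (B i j)‖ :=
          (norm_sum_le _ _).trans (sum_le_sum fun i _ => norm_sum_le _ _)
      _ ≤ ∑ i, ∑ j, ((if i = j then 1 else 0) + μ ^ k * ‖A i j‖) := by
          refine sum_le_sum fun i _ => sum_le_sum fun j _ => ?_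
          rw [norm_mul, RCLike.norm_conj]
          by_cases hij : i = j
          · subst hij
            rw [hB1, if_pos rfl, mul_one]
            have := mul_nonneg hμk (norm_nonneg (A i i))
            have := hA1 i
            linarith
          · rw [if_neg hij, zero_add, mul_comm]
            exact mul_le_mul_of_nonneg_right (hB2 i j hij) (norm_nonneg _)
      _ = M + μ ^ k * Y := by
          simp only [sum_add_distrib, sum_ite_eq, mem_univ, if_true]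
          rw [sum_const, card_univ, nsmul_eq_mul, mul_one, hY, mul_sum]
          congr 1
          exact sum_congr rfl fun i _ => (mul_sum _ _ _).symm
  have step3 : Y ^ 2 ≤ M ^ 2 * Q := by
    have e1 : Y = ∑ p : ι × ι, ‖A p.1 p.2‖ := by
      rw [hY, Fintype.sum_prod_type]
    have e2 : Q = ∑ p : ι × ι, ‖A p.1 p.2‖ ^ 2 := by
      rw [← hAA, Fintype.sum_prod_type]
    rw [e1, e2]
    have e3 := sq_sum_le_card_mul_sum_sq (s := (univ : Finset (ι × ι)))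
      (f := fun p => ‖A p.1 p.2‖)
    rw [card_univ, Fintype.card_prod] at e3
    push_cast at e3
    have e4 : M ^ 2 = (Fintype.card ι : ℝ) * (Fintype.card ι : ℝ) := by rw [hM]; ring
    rw [e4]
    exact e3
  -- conclusion
  by_contra hcon
  push Not at hcon
  have hck : 0 < c ^ k := pow_pos hc k
  have hc2 : c ^ (2 * k) = (c ^ k) ^ 2 := by rw [← pow_mul, mul_comm]
  have hm2 : μ ^ (2 * k) = (μ ^ k) ^ 2 := by rw [← pow_mul, mul_comm]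
  have hMpos : 0 < M := by
    rcases hM0.lt_or_eq with h | h
    · exact h
    · rw [← h, zero_mul] at hcon
      linarith
  rw [hc2] at hcon hR
  rw [hm2] at hR
  set C := c ^ k
  set m := μ ^ k
  have hm0 : 0 ≤ m := pow_nonneg hμ k
  have hRpos : 0 < R := by
    rcases hR0.lt_or_eq with h | h
    · exact h
    · rw [← h, zero_mul] at step1
      have : 0 < (C * M) ^ 2 := by positivity
      linarith
  -- Q > 2 M
  have q1 : 2 * M < Q := by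
    have : 2 * R * M < R * Q := by
      calc 2 * R * M < M * C ^ 2 * M := by nlinarith
        _ = (C * M) ^ 2 := by ring
        _ ≤ R * Q := step1
    nlinarith
  have q2 : Q / 2 < m * Y := by linarith
  have q3 : (Q / 2) ^ 2 < (m * Y) ^ 2 := by
    apply pow_lt_pow_left₀ q2 (by linarith) (by norm_num)
  have q4 : (m * Y) ^ 2 ≤ m ^ 2 * (M ^ 2 * Q) := by
    rw [mul_pow]
    exact mul_le_mul_of_nonneg_left step3 (sq_nonneg m)
  have hQpos : 0 < Q := by linarith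
  have q5 : Q < 4 * m ^ 2 * M ^ 2 := by
    have : Q * Q < (4 * m ^ 2 * M ^ 2) * Q := by nlinarith
    exact lt_of_mul_lt_mul_right this hQpos.le
  have q6 : C ^ 2 * M ^ 2 < 4 * R * m ^ 2 * M ^ 2 := by
    calc C ^ 2 * M ^ 2 = (C * M) ^ 2 := by ring
      _ ≤ R * Q := step1
      _ < R * (4 * m ^ 2 * M ^ 2) := mul_lt_mul_of_pos_left q5 hRpos
      _ = 4 * R * m ^ 2 * M ^ 2 := by ring
  have q7 : C ^ 2 < 4 * R * m ^ 2 := lt_of_mul_lt_mul_right q6 (sq_nonneg M)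
  linarith

end Pool.Agent.Lib.Sym40
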